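import Pool.Agent.X28.WI.Cur

set_option autoImplicit false

/-! The integer points of the shifted curve, and the Wilson primes. -/

namespace Pool.Agent.X28.WI

open Set MeasureTheory Filter Topology

lemma wq (p : ℕ) (hp : p.Prime) : ∃ w : ℕ, (p - 1).factorial + 1 = p * w := by
  have : Fact p.Prime := ⟨hp⟩
  have h := ZMod.wilsons_lemma p
  have h2 : (((p - 1).factorial + 1 : ℕ) : ZMod p) = 0 := by
    push_cast
    rw [h]
    ring
  exact (ZMod.natCast_eq_zero_iff _ _).1 h2

lemma wilson_iff {p w : ℕ} (hp : p.Prime) (hw : (p - 1).factorial + 1 = p * w) :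
    p ^ 2 ∣ (p - 1).factorial + 1 ↔ (p : ℤ) ∣ (w : ℤ) := by
  rw [hw, pow_two, Int.natCast_dvd_natCast]
  exact Nat.mul_dvd_mul_iff_left hp.pos

lemma floor_wq {p w : ℕ} (hp : p.Prime) (hw : (p - 1).factorial + 1 = p * w) :
    (((p - 1).factorial : ℝ) + 1) / p = w := by
  have hp0 : (0 : ℝ) < p := by exact_mod_cast hp.pos
  have h : (((p - 1).factorial : ℝ) + 1) = p * w := by exact_mod_cast hw
  rw [h]
  field_simp

lemma gam_zero (p : ℕ) (hp : 0 < p) : Real.Gamma ((p : ℝ) + 0) = ((p - 1).factorial : ℝ) := by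
  have := gam_fact p 0 hp
  push_cast at this
  rw [this, add_zero]

lemma int_point (k p : ℕ) (hp : p.Prime) :
    (p : ℤ) ∣ ⌊(Real.Gamma ((p : ℝ) + ((k : ℝ) + 1)) + 1) / p⌋ + (k.factorial : ℤ) := by
  have hp0 : (0 : ℝ) < p := by exact_mod_cast hp.pos
  have hp2 : (2 : ℝ) ≤ p := by exact_mod_cast hp.two_le
  have h1 := gam_fact p (k + 1) hp.pos
  push_cast at h1
  rw [h1]
  have h2 : p + (k + 1) - 1 = p + k := by omega
  rw [h2]
  have h3 : (p + k).factorial = p * ((p - 1).factorial * (p + 1).ascFactorial k) := by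
    rw [← Nat.factorial_mul_ascFactorial, ← Nat.mul_factorial_pred hp.ne_zero]
    ring
  have h4 : ⌊(((p + k).factorial : ℝ) + 1) / p⌋ = (((p - 1).factorial * (p + 1).ascFactorial k : ℕ) : ℤ) := by
    rw [Int.floor_eq_iff]
    have h5 : (((p + k).factorial : ℝ) + 1) / p = (((p - 1).factorial * (p + 1).ascFactorial k : ℕ) : ℝ) + 1 / p := by
      rw [h3]
      push_cast
      field_simp
    rw [h5]
    have h6 : 1 / (p : ℝ) < 1 := by rw [div_lt_one hp0]; linarith
    have h7 : 0 < 1 / (p : ℝ) := by positivity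
    push_cast
    constructor <;> linarith
  rw [h4]
  have : Fact p.Prime := ⟨hp⟩
  rw [← ZMod.intCast_zmod_eq_zero_iff_dvd _ p]
  have h8 : (((p + 1).ascFactorial k : ℕ) : ZMod p) = (k.factorial : ZMod p) := by
    rw [← Nat.one_ascFactorial k, Nat.cast_ascFactorial, Nat.cast_ascFactorial]
    simp
  push_cast
  rw [h8, ZMod.wilsons_lemma]
  ring

end Pool.Agent.X28.WI
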