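import Mathlib

set_option autoImplicit false

/-! The time which a convex curve spends in an arc modulo one. -/

namespace Pool.Agent.X28.WI

open Set MeasureTheory

/-- a convex curve with slope at least `D` -/
structure Curve (f : ℝ → ℝ) (D α β : ℝ) : Prop where
  cont : Continuous f
  conv : ConvexOn ℝ (Icc α β) f
  slope : ∀ x ∈ Icc α β, ∀ y ∈ Icc α β, x ≤ y → D * (y - x) ≤ f y - f x

/-- the times at which the curve is in the arc -/
def E (f : ℝ → ℝ) (u ℓ : ℝ) : Set ℝ := {s | Int.fract (f s - u) < ℓ}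

lemma E_meas {f : ℝ → ℝ} (hf : Continuous f) (u ℓ : ℝ) : MeasurableSet (E f u ℓ) := by
  unfold E
  exact measurableSet_lt (measurable_fract.comp ((hf.measurable).sub_const u)) measurable_const

variable {f g : ℝ → ℝ} {D D' α β u ℓ v m' : ℝ}

lemma Curve.sub (h : Curve f D α β) {c d : ℝ} (hc : α ≤ c) (hd : d ≤ β) : Curve f D c d :=
  ⟨h.cont, h.conv.subset (Icc_subset_Icc hc hd) (convex_Icc _ _),
    fun x hx y hy hxy => h.slope x (Icc_subset_Icc hc hd hx) y (Icc_subset_Icc hc hd hy) hxy⟩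

lemma Curve.mono (h : Curve f D α β) (hD : 0 < D) {x y : ℝ} (hx : x ∈ Icc α β) (hy : y ∈ Icc α β) (hxy : x ≤ y) :
    f x ≤ f y := by
  have := h.slope x hx y hy hxy
  nlinarith

lemma Curve.smono (h : Curve f D α β) (hD : 0 < D) {x y : ℝ} (hx : x ∈ Icc α β) (hy : y ∈ Icc α β) (hxy : x < y) :
    f x < f y := by
  have := h.slope x hx y hy hxy.le
  nlinarith

lemma Curve.lt_of (h : Curve f D α β) (hD : 0 < D) {x y : ℝ} (hx : x ∈ Icc α β) (hy : y ∈ Icc α β) (hxy : f x < f y) :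
    x < y := by
  by_contra hn
  have := h.mono hD hy hx (not_lt.1 hn)
  linarith

lemma Curve.len (h : Curve f D α β) (hD : 0 < D) {x y : ℝ} (hx : x ∈ Icc α β) (hy : y ∈ Icc α β) (hxy : x ≤ y)
    {w : ℝ} (hw : f y - f x ≤ w) : y - x ≤ w / D := by
  have := h.slope x hx y hy hxy
  rw [le_div_iff₀ hD]
  linarith

lemma Curve.ivt (h : Curve f D α β) {c d w : ℝ} (hcd : c ≤ d) (h1 : f c ≤ w) (h2 : w ≤ f d) : ∃ t ∈ Icc c d, f t = w := by
  have := intermediate_value_Icc hcd h.cont.continuousOn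
  obtain ⟨t, ht, hft⟩ := this ⟨h1, h2⟩
  exact ⟨t, ht, hft⟩

lemma fin_inter (S : Set ℝ) (a b : ℝ) : volume (S ∩ Ico a b) ≠ ⊤ :=
  ne_top_of_le_ne_top (by rw [Real.volume_Ico]; exact ENNReal.ofReal_ne_top) (measure_mono inter_subset_right)

lemma split (S : Set ℝ) (hS : MeasurableSet S) {a b c : ℝ} (hab : a ≤ b) (hbc : b ≤ c) :
    volume.real (S ∩ Ico a c) = volume.real (S ∩ Ico a b) + volume.real (S ∩ Ico b c) := by
  rw [← Ico_union_Ico_eq_Ico hab hbc, inter_union_distrib_left]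
  apply measureReal_union
  · rw [Set.disjoint_left]
    rintro x ⟨_, hx⟩ ⟨_, hx'⟩
    exact absurd hx.2 (not_lt.2 hx'.1)
  · exact hS.inter measurableSet_Ico
  · exact fin_inter _ _ _
  · exact fin_inter _ _ _

lemma vol_le (S : Set ℝ) {a b : ℝ} (hab : a ≤ b) : volume.real (S ∩ Ico a b) ≤ b - a := by
  have h1 : volume.real (S ∩ Ico a b) ≤ volume.real (Ico a b) :=
    measureReal_mono inter_subset_right (by rw [Real.volume_Ico]; exact ENNReal.ofReal_ne_top)
  rw [Real.volume_real_Ico_of_le hab] at h1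
  exact h1

/-- the part of the arc in one turn -/
lemma piece (h : Curve f D α β) (hD : 0 < D) (hℓ0 : 0 ≤ ℓ) (hℓ1 : ℓ ≤ 1) (k : ℤ) {c d : ℝ} (hc : c ∈ Icc α β)
    (hd : d ∈ Icc α β) (hcd : c ≤ d) (h1 : u + k ≤ f c) (h2 : f d ≤ u + k + 1) :
    ∃ r ∈ Icc c d, E f u ℓ ∩ Ico c d = Ico c r ∧ (c < r → f r ≤ u + k + ℓ) ∧ (r < d → u + k + ℓ ≤ f r) := by
  have hsub : ∀ s ∈ Icc c d, s ∈ Icc α β := fun s hs => ⟨hc.1.trans hs.1, hs.2.trans hd.2⟩
  have hmem : ∀ s ∈ Ico c d, (s ∈ E f u ℓ ↔ f s < u + k + ℓ) := by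
    intro s hs
    have hs' := hsub s ⟨hs.1, hs.2.le⟩
    have a1 : f c ≤ f s := h.mono hD hc hs' hs.1
    have a2 : f s < f d := h.smono hD hs' hd hs.2
    have a3 : Int.fract (f s - u) = f s - u - k := by
      rw [Int.fract_eq_iff]
      refine ⟨by linarith, by linarith, k, by ring⟩
    show Int.fract (f s - u) < ℓ ↔ _
    rw [a3]
    constructor <;> intro <;> linarith
  rcases le_total (f d) (u + k + ℓ) with h3 | h3
  · refine ⟨d, ⟨hcd, le_rfl⟩, ?_, fun _ => h3, fun hlt => absurd hlt (lt_irrefl _)⟩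
    apply Subset.antisymm inter_subset_right
    intro s hs
    refine ⟨(hmem s hs).2 ?_, hs⟩
    exact lt_of_lt_of_le (h.smono hD (hsub s ⟨hs.1, hs.2.le⟩) hd hs.2) h3
  · rcases le_total (u + k + ℓ) (f c) with h4 | h4
    · refine ⟨c, ⟨le_rfl, hcd⟩, ?_, fun hlt => absurd hlt (lt_irrefl _), fun _ => h4⟩
      rw [Ico_self, eq_empty_iff_forall_notMem]
      rintro s ⟨hs1, hs2⟩
      have a1 := (hmem s hs2).1 hs1
      have a2 : f c ≤ f s := h.mono hD hc (hsub s ⟨hs2.1, hs2.2.le⟩) hs2.1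
      linarith
    · obtain ⟨r, hr, hfr⟩ := h.ivt hcd h4 h3
      refine ⟨r, hr, ?_, fun _ => hfr.le, fun _ => hfr.ge⟩
      ext s
      constructor
      · rintro ⟨hs1, hs2⟩
        have a1 := (hmem s hs2).1 hs1
        rw [← hfr] at a1
        exact ⟨hs2.1, h.lt_of hD (hsub s ⟨hs2.1, hs2.2.le⟩) (hsub r hr) a1⟩
      · intro hs
        have hs2 : s ∈ Ico c d := ⟨hs.1, lt_of_lt_of_le hs.2 hr.2⟩
        refine ⟨(hmem s hs2).2 ?_, hs2⟩
        rw [← hfr]
        exact h.smono hD (hsub s ⟨hs2.1, hs2.2.le⟩) (hsub r hr) hs.2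

lemma conv_up (h : Curve f D α β) (hD : 0 < D) {t' t r : ℝ} (ht' : t' ∈ Icc α β) (ht : t ∈ Icc α β) (hr : r ∈ Icc α β)
    (h1 : t' < t) (h2 : t ≤ r) (e1 : f t - f t' = 1) (e2 : f r - f t ≤ ℓ) : r - t ≤ ℓ * (t - t') := by
  rcases h2.eq_or_lt with h3 | h3
  · rw [← h3]
    have : 0 ≤ ℓ := by rw [← h3] at e2; linarith
    have : 0 ≤ ℓ * (t - t') := mul_nonneg this (by linarith)
    linarith
  · have key := h.conv.slope_mono_adjacent ht' hr h1 h3
    rw [e1, div_le_div_iff₀ (by linarith) (by linarith)] at key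
    nlinarith

theorem arc_le (h : Curve f D α β) (hD : 0 < D) (hαβ : α ≤ β) (hℓ0 : 0 ≤ ℓ) (hℓ1 : ℓ ≤ 1) :
    volume.real (E f u ℓ ∩ Ico α β) ≤ ℓ * (β - α) + 2 / D := by
  have hα : α ∈ Icc α β := ⟨le_rfl, hαβ⟩
  have hβ : β ∈ Icc α β := ⟨hαβ, le_rfl⟩
  have hE := E_meas h.cont u ℓ
  set k₀ : ℤ := ⌈f α - u⌉ with hk₀
  have hk1 : f α ≤ u + k₀ := by have := Int.le_ceil (f α - u); linarith
  have hk2 : u + k₀ < f α + 1 := by have := Int.ceil_lt_add_one (f α - u); linarith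
  have hD0 : 0 < 1 / D := by positivity
  have e2D : 2 / D = 1 / D + 1 / D := by ring
  have key : ∀ j : ℕ, ∀ t ∈ Icc α β, ∀ c ∈ Icc α β, f t = u + k₀ + j → t ≤ c → f c ≤ u + k₀ + j + 1 →
      volume.real (E f u ℓ ∩ Ico α c) ≤ 2 / D + ℓ * (t - α) := by
    intro j
    induction j with
    | zero =>
      intro t ht c hc hft htc hfc
      rw [Nat.cast_zero, add_zero] at hft hfc
      rw [split _ hE ht.1 htc]
      have a1 := vol_le (E f u ℓ) ht.1
      have a2 := vol_le (E f u ℓ) htc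
      have a3 := h.len hD hα ht ht.1 (w := 1) (by linarith)
      have a4 := h.len hD ht hc htc (w := 1) (by linarith)
      have a5 : 0 ≤ ℓ * (t - α) := mul_nonneg hℓ0 (by linarith [ht.1])
      linarith
    | succ j ih =>
      intro t ht c hc hft htc hfc
      push_cast at hft hfc
      obtain ⟨t', ht', hft'⟩ := h.ivt (w := u + k₀ + j) ht.1 (by have : (0 : ℝ) ≤ j := Nat.cast_nonneg j; linarith) (by linarith)
      have ht'm : t' ∈ Icc α β := ⟨ht'.1, ht'.2.trans ht.2⟩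
      have hlt : t' < t := h.lt_of hD ht'm ht (by rw [hft, hft']; linarith)
      have b1 := ih t' ht'm t ht hft' hlt.le (by rw [hft]; linarith)
      obtain ⟨r, hr, hr2, hr3, _⟩ := piece (u := u) h hD hℓ0 hℓ1 (k₀ + (j + 1 : ℕ)) ht hc htc (by rw [hft]; push_cast; linarith)
        (by push_cast; linarith)
      rw [split _ hE ht.1 htc, hr2, Real.volume_real_Ico_of_le hr.1]
      have hrm : r ∈ Icc α β := ⟨ht.1.trans hr.1, hr.2.trans hc.2⟩
      have b2 : r - t ≤ ℓ * (t - t') := by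
        rcases hr.1.eq_or_lt with h3 | h3
        · rw [← h3]
          have : 0 ≤ ℓ * (t - t') := mul_nonneg hℓ0 (by linarith)
          linarith
        · have h4 := hr3 h3
          push_cast at h4
          exact conv_up h hD ht'm ht hrm hlt hr.1 (by rw [hft, hft']; ring) (by rw [hft]; linarith)
      nlinarith
  rcases lt_or_ge (f β) (u + k₀) with h1 | h1
  · have a1 := vol_le (E f u ℓ) hαβ
    have a2 := h.len hD hα hβ hαβ (w := 1) (by linarith)
    have a3 : 0 ≤ ℓ * (β - α) := mul_nonneg hℓ0 (by linarith)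
    linarith
  · set J := ⌊f β - u - k₀⌋₊ with hJ
    have hJ1 : (J : ℝ) ≤ f β - u - k₀ := Nat.floor_le (by linarith)
    have hJ2 : f β - u - k₀ < J + 1 := Nat.lt_floor_add_one _
    obtain ⟨t, ht, hft⟩ := h.ivt (w := u + k₀ + J) hαβ (by have : (0 : ℝ) ≤ J := Nat.cast_nonneg J; linarith) (by linarith)
    have := key J t ht β hβ hft ht.2 (by linarith)
    have a3 : ℓ * (t - α) ≤ ℓ * (β - α) := mul_le_mul_of_nonneg_left (by linarith [ht.2]) hℓ0
    linarith

theorem arc_ge (h : Curve f D α β) (hD : 0 < D) (hαβ : α ≤ β) (hℓ0 : 0 ≤ ℓ) (hℓ1 : ℓ ≤ 1) :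
    ℓ * (β - α) - 2 / D ≤ volume.real (E f u ℓ ∩ Ico α β) := by
  have hα : α ∈ Icc α β := ⟨le_rfl, hαβ⟩
  have hβ : β ∈ Icc α β := ⟨hαβ, le_rfl⟩
  have hE := E_meas h.cont u ℓ
  set k₀ : ℤ := ⌈f α - u⌉ with hk₀
  have hk1 : f α ≤ u + k₀ := by have := Int.le_ceil (f α - u); linarith
  have hk2 : u + k₀ < f α + 1 := by have := Int.ceil_lt_add_one (f α - u); linarith
  have hD0 : 0 < 1 / D := by positivity
  have e2D : 2 / D = 1 / D + 1 / D := by ring
  have hpos : ∀ S : Set ℝ, 0 ≤ volume.real S := fun S => measureReal_nonneg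
  rcases lt_or_ge (f β) (u + k₀) with h1 | h1
  · have a2 := h.len hD hα hβ hαβ (w := 1) (by linarith)
    have a3 : ℓ * (β - α) ≤ 1 * (β - α) := mul_le_mul_of_nonneg_right hℓ1 (by linarith)
    have := hpos (E f u ℓ ∩ Ico α β)
    linarith
  obtain ⟨t₀, ht₀, hft₀⟩ := h.ivt hαβ hk1 h1
  have key : ∀ j : ℕ, ∀ t ∈ Icc t₀ β, f t = u + k₀ + j → ℓ * (t - t₀) ≤ volume.real (E f u ℓ ∩ Ico t₀ t) := by
    intro j
    induction j with
    | zero =>
      intro t ht hft
      rw [Nat.cast_zero, add_zero] at hft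
      have : t = t₀ := by
        by_contra hne
        have hlt : t₀ < t := lt_of_le_of_ne ht.1 (Ne.symm hne)
        have := h.smono hD ht₀ ⟨ht₀.1.trans ht.1, ht.2⟩ hlt
        linarith
      rw [this, sub_self, mul_zero]
      exact hpos _
    | succ j ih =>
      intro t ht hft
      push_cast at hft
      have htm : t ∈ Icc α β := ⟨ht₀.1.trans ht.1, ht.2⟩
      obtain ⟨t', ht', hft'⟩ := h.ivt (w := u + k₀ + j) ht.1 (by have : (0 : ℝ) ≤ j := Nat.cast_nonneg j; linarith) (by linarith)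
      have ht'm : t' ∈ Icc α β := ⟨ht₀.1.trans ht'.1, ht'.2.trans ht.2⟩
      have b1 := ih t' ⟨ht'.1, ht'.2.trans ht.2⟩ hft'
      rw [split _ hE ht'.1 ht'.2]
      have hw : t' + ℓ * (t - t') ∈ Icc t' t := by
        have : 0 ≤ t - t' := by linarith [ht'.2]
        constructor
        · nlinarith
        · nlinarith
      have hwm : t' + ℓ * (t - t') ∈ Icc α β := ⟨ht'm.1.trans hw.1, hw.2.trans htm.2⟩
      have hcv : f (t' + ℓ * (t - t')) ≤ u + k₀ + j + ℓ := by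
        have h5 := h.conv.2 ht'm htm (show 0 ≤ 1 - ℓ by linarith) hℓ0 (by ring)
        simp only [smul_eq_mul] at h5
        have e : (1 - ℓ) * t' + ℓ * t = t' + ℓ * (t - t') := by ring
        rw [e, hft, hft'] at h5
        linarith
      have hsub : Ico t' (t' + ℓ * (t - t')) ⊆ E f u ℓ ∩ Ico t' t := by
        intro s hs
        have hs1 : s ∈ Icc α β := ⟨ht'm.1.trans hs.1, hs.2.le.trans hwm.2⟩
        have a1 := h.mono hD ht'm hs1 hs.1
        have a2 := h.smono hD hs1 hwm hs.2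
        refine ⟨?_, hs.1, lt_of_lt_of_le hs.2 hw.2⟩
        show Int.fract (f s - u) < ℓ
        have a3 : Int.fract (f s - u) = f s - u - ((k₀ + j : ℤ) : ℝ) := by
          rw [Int.fract_eq_iff]
          push_cast
          exact ⟨by linarith, by linarith, k₀ + j, by push_cast; ring⟩
        rw [a3]
        push_cast
        linarith
      have b2 := measureReal_mono (μ := volume) hsub (fin_inter _ _ _)
      rw [Real.volume_real_Ico_of_le hw.1] at b2
      nlinarith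
  set J := ⌊f β - u - k₀⌋₊ with hJ
  have hJ1 : (J : ℝ) ≤ f β - u - k₀ := Nat.floor_le (by linarith)
  have hJ2 : f β - u - k₀ < J + 1 := Nat.lt_floor_add_one _
  obtain ⟨t, ht, hft⟩ := h.ivt (w := u + k₀ + J) ht₀.2 (by have : (0 : ℝ) ≤ J := Nat.cast_nonneg J; linarith) (by linarith)
  have htm : t ∈ Icc α β := ⟨ht₀.1.trans ht.1, ht.2⟩
  have b1 := key J t ht hft
  have b2 := h.len hD hα ht₀ ht₀.1 (w := 1) (by linarith)
  have b3 := h.len hD htm hβ ht.2 (w := 1) (by linarith)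
  rw [split _ hE htm.1 htm.2, split _ hE ht₀.1 ht.1]
  have p1 := hpos (E f u ℓ ∩ Ico α t₀)
  have p2 := hpos (E f u ℓ ∩ Ico t β)
  have p3 : ℓ * (β - α) ≤ ℓ * (t - t₀) + (1 / D + 1 / D) := by
    have : ℓ * ((β - t) + (t₀ - α)) ≤ 1 * ((β - t) + (t₀ - α)) :=
      mul_le_mul_of_nonneg_right hℓ1 (by linarith [ht.2, ht₀.1])
    nlinarith
  linarith

/-- two curves -/
theorem pair_le (h : Curve f D α β) (hD : 0 < D) (h' : Curve g D' α β) (hD' : 0 < D') (hαβ : α ≤ β) (hℓ0 : 0 ≤ ℓ)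
    (hℓ1 : ℓ ≤ 1) {u' ℓ' : ℝ} (hℓ0' : 0 ≤ ℓ') (hℓ1' : ℓ' ≤ 1) :
    volume.real (E g u' ℓ' ∩ E f u ℓ ∩ Ico α β) ≤ ℓ' * volume.real (E f u ℓ ∩ Ico α β) + (f β - f α + 3) * (2 / D') := by
  have hα : α ∈ Icc α β := ⟨le_rfl, hαβ⟩
  have hβ : β ∈ Icc α β := ⟨hαβ, le_rfl⟩
  have hE := E_meas h.cont u ℓ
  have hE' := E_meas h'.cont u' ℓ'
  set k₀ : ℤ := ⌈f α - u⌉ with hk₀
  have hk1 : f α ≤ u + k₀ := by have := Int.le_ceil (f α - u); linarith
  have hk2 : u + k₀ < f α + 1 := by have := Int.ceil_lt_add_one (f α - u); linarith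
  have hD0 : 0 < 2 / D' := by positivity
  have one : ∀ (k : ℤ) (c d : ℝ), c ∈ Icc α β → d ∈ Icc α β → c ≤ d → u + k ≤ f c → f d ≤ u + k + 1 →
      volume.real (E g u' ℓ' ∩ E f u ℓ ∩ Ico c d) ≤ ℓ' * volume.real (E f u ℓ ∩ Ico c d) + 2 / D' := by
    intro k c d hc hd hcd h1 h2
    obtain ⟨r, hr, hr2, _, _⟩ := piece (u := u) h hD hℓ0 hℓ1 k hc hd hcd h1 h2
    rw [inter_assoc, hr2, Real.volume_real_Ico_of_le hr.1]
    exact arc_le (h'.sub (c := c) (d := r) hc.1 (hr.2.trans hd.2)) hD' hr.1 hℓ0' hℓ1'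
  have key : ∀ j : ℕ, ∀ c ∈ Icc α β, f c ≤ u + k₀ + j →
      volume.real (E g u' ℓ' ∩ E f u ℓ ∩ Ico α c) ≤ ℓ' * volume.real (E f u ℓ ∩ Ico α c) + (j + 1) * (2 / D') := by
    intro j
    induction j with
    | zero =>
      intro c hc hfc
      rw [Nat.cast_zero, add_zero] at hfc
      have := one (k₀ - 1) α c hα hc hc.1 (by push_cast; linarith) (by push_cast; linarith)
      rw [Nat.cast_zero, zero_add, one_mul]
      exact this
    | succ j ih =>
      intro c hc hfc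
      push_cast at hfc ⊢
      rcases le_or_gt (f c) (u + k₀ + j) with h1 | h1
      · have := ih c hc h1
        linarith
      · obtain ⟨t, ht, hft⟩ := h.ivt (w := u + k₀ + j) hc.1 (by have : (0 : ℝ) ≤ j := Nat.cast_nonneg j; linarith) h1.le
        have htm : t ∈ Icc α β := ⟨ht.1, ht.2.trans hc.2⟩
        have b1 := ih t htm hft.le
        have b2 := one (k₀ + j) t c htm hc ht.2 (by push_cast; linarith) (by push_cast; linarith)
        rw [split _ (hE'.inter hE) ht.1 ht.2, split _ hE ht.1 ht.2]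
        nlinarith
  set J := ⌈f β - u - k₀⌉₊ with hJ
  have hJ1 : f β - u - k₀ ≤ J := Nat.le_ceil _
  have hJ2 : (J : ℝ) ≤ f β - f α + 2 := by
    have hm := h.mono hD hα hβ hαβ
    rcases le_or_gt (f β - u - k₀) 0 with h1 | h1
    · have : J = 0 := Nat.ceil_eq_zero.2 h1
      rw [this]
      push_cast
      linarith
    · have := (Nat.ceil_lt_add_one h1.le).le
      linarith
  have := key J β hβ (by linarith)
  refine this.trans ?_
  have : (J + 1 : ℝ) * (2 / D') ≤ (f β - f α + 3) * (2 / D') := mul_le_mul_of_nonneg_right (by linarith) hD0.le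
  linarith

end Pool.Agent.X28.WI
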