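import Pool.Agent.X28.WI.Fam
import Pool.Agent.Helper256.KM.Mertens

set_option autoImplicit false

/-! The two families of curves through the Wilson quotients. -/

namespace Pool.Agent.X28.WI

open Set MeasureTheory Filter Topology

/-- the shifted curve, `s = 0` being the Wilson quotient over `p` -/
noncomputable def shc (p : ℕ) (s : ℝ) : ℝ := (Real.Gamma (p + max s 0) + 1) / (p : ℝ) ^ 2

/-- the dilated curve, `s = 1` being the Wilson quotient over `p` -/
noncomputable def amc (p : ℕ) (s : ℝ) : ℝ := s * (((p - 1).factorial : ℝ) + 1) / (p : ℝ) ^ 2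

lemma gam_fact (p m : ℕ) (hp : 0 < p) : Real.Gamma ((p : ℝ) + m) = ((p + m - 1).factorial : ℝ) := by
  have h := Real.Gamma_nat_eq_factorial (p + m - 1)
  rw [← h]
  congr 1
  have : p + m = (p + m - 1) + 1 := by omega
  have h2 : ((p + m : ℕ) : ℝ) = ((p + m - 1 + 1 : ℕ) : ℝ) := by rw [← this]
  push_cast at h2
  exact h2

lemma shc_cont (p : ℕ) (hp : 0 < p) : Continuous (shc p) := by
  have hp' : (0 : ℝ) < p := by exact_mod_cast hp
  have h : Continuous fun s : ℝ => Real.Gamma (p + max s 0) := by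
    rw [continuous_iff_continuousAt]
    intro s
    have h1 : (0 : ℝ) < p + max s 0 := by
      have := le_max_right s 0
      linarith
    have h2 : ContinuousAt Real.Gamma (p + max s 0) := by
      apply (Real.differentiableAt_Gamma _).continuousAt
      intro m hm
      have : (0 : ℝ) ≤ m := Nat.cast_nonneg _
      linarith
    have h3 : ContinuousAt (fun s : ℝ => (p : ℝ) + max s 0) s := by fun_prop
    exact ContinuousAt.comp (f := fun s : ℝ => (p : ℝ) + max s 0) h2 h3
  unfold shc
  exact (h.add continuous_const).div_const _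

lemma shc_eq (p : ℕ) {s : ℝ} (hs : 0 ≤ s) : shc p s = (Real.Gamma (p + s) + 1) / (p : ℝ) ^ 2 := by
  unfold shc
  rw [max_eq_left hs]

lemma slope_gam (c X Y : ℝ) (hc : 0 < c) (hX : c + 1 ≤ X) (hXY : X < Y) :
    Real.Gamma (c + 1) - Real.Gamma c ≤ (Real.Gamma Y - Real.Gamma X) / (Y - X) := by
  have hcv := Real.convexOn_Gamma
  have e : Real.Gamma (c + 1) - Real.Gamma c = (Real.Gamma (c + 1) - Real.Gamma c) / (c + 1 - c) := by
    rw [add_sub_cancel_left, div_one]
  rw [e]
  rcases hX.eq_or_lt with h | h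
  · rw [← h]
    exact hcv.slope_mono_adjacent (mem_Ioi.2 hc) (mem_Ioi.2 (by linarith)) (by linarith) (by linarith)
  · exact (hcv.slope_mono_adjacent (mem_Ioi.2 hc) (mem_Ioi.2 (by linarith)) (by linarith) h).trans
      (hcv.slope_mono_adjacent (mem_Ioi.2 (by linarith)) (mem_Ioi.2 (by linarith)) h hXY)

lemma shc_fam : Fam shc := by
  intro a
  refine ⟨a, fun x hx h11 => ⟨⟨shc_cont x hx.pos, ?_, ?_⟩, ?_⟩⟩
  · have hx0 : (0 : ℝ) < x := by exact_mod_cast hx.pos
    have ha : (0 : ℝ) ≤ a := Nat.cast_nonneg _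
    refine ⟨convex_Icc _ _, ?_⟩
    intro s hs t ht α β hα hβ hab
    simp only [smul_eq_mul]
    have hs0 : 0 ≤ s := ha.trans hs.1
    have ht0 : 0 ≤ t := ha.trans ht.1
    rw [shc_eq x hs0, shc_eq x ht0, shc_eq x (by positivity)]
    have h1 := Real.convexOn_Gamma.2 (show (x : ℝ) + s ∈ Ioi (0 : ℝ) from mem_Ioi.2 (by linarith))
      (show (x : ℝ) + t ∈ Ioi (0 : ℝ) from mem_Ioi.2 (by linarith)) hα hβ hab
    simp only [smul_eq_mul] at h1
    have e1 : α * ((x : ℝ) + s) + β * ((x : ℝ) + t) = x + (α * s + β * t) := by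
      linear_combination (x : ℝ) * hab
    rw [e1] at h1
    have e2 : α * ((Real.Gamma (x + s) + 1) / (x : ℝ) ^ 2) + β * ((Real.Gamma (x + t) + 1) / (x : ℝ) ^ 2) =
        (α * Real.Gamma (x + s) + β * Real.Gamma (x + t) + 1) / (x : ℝ) ^ 2 := by
      field_simp
      linear_combination hab
    rw [e2]
    exact div_le_div_of_nonneg_right (by linarith) (by positivity)
  · intro s hs t ht hst
    have hx0 : (0 : ℝ) < x := by exact_mod_cast hx.pos
    have hxr : (11 : ℝ) ≤ x := by exact_mod_cast h11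
    have ha : (0 : ℝ) ≤ a := Nat.cast_nonneg _
    rcases hst.eq_or_lt with h | h
    · rw [h]; simp
    · rw [shc_eq x (ha.trans hs.1), shc_eq x (ha.trans ht.1)]
      have h1 := slope_gam ((x : ℝ) + a - 1) (x + s) (x + t) (by linarith) (by linarith [hs.1]) (by linarith)
      have e0 : (x : ℝ) + t - (x + s) = t - s := by ring
      have e1 : (x : ℝ) + a - 1 + 1 = x + a := by ring
      rw [e0, e1, gam_fact x a hx.pos, le_div_iff₀ (by linarith)] at h1
      have h2 : Real.Gamma ((x : ℝ) + a - 1) ≤ ((x + a - 1).factorial : ℝ) / 2 := by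
        have h3 := Real.Gamma_add_one (s := (x : ℝ) + a - 1) (by linarith)
        rw [e1, gam_fact x a hx.pos] at h3
        rw [h3]
        have h4 : 0 < Real.Gamma ((x : ℝ) + a - 1) := Real.Gamma_pos_of_pos (by linarith)
        nlinarith
      rw [div_mul_eq_mul_div, ← sub_div, div_le_div_iff₀ (by positivity) (by positivity)]
      have h5 : 0 < t - s := by linarith
      have h6 : ((x + a - 1).factorial : ℝ) / 2 * (t - s) ≤ Real.Gamma (x + t) - Real.Gamma (x + s) :=
        (mul_le_mul_of_nonneg_right (by linarith) h5.le).trans h1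
      have h7 : (0 : ℝ) < (x : ℝ) ^ 2 := by positivity
      nlinarith
  · have hx0 : (0 : ℝ) < x := by exact_mod_cast hx.pos
    have ha : (0 : ℝ) ≤ a := Nat.cast_nonneg _
    rw [shc_eq x (by linarith), shc_eq x ha, ← sub_div]
    apply div_le_div_of_nonneg_right _ (by positivity)
    have h1 : 0 < Real.Gamma ((x : ℝ) + a) := Real.Gamma_pos_of_pos (by linarith)
    have h2 := gam_fact x (a + 1) hx.pos
    push_cast at h2
    have h3 : x + (a + 1) - 1 = x + a := by omega
    rw [h3] at h2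
    rw [h2]
    linarith

lemma amc_fam : Fam amc := by
  intro a
  refine ⟨0, fun x hx h11 => ?_⟩
  have hx0 : (0 : ℝ) < x := by exact_mod_cast hx.pos
  have hxr : (11 : ℝ) ≤ x := by exact_mod_cast h11
  have hF : (1 : ℝ) ≤ ((x - 1).factorial : ℝ) := by exact_mod_cast Nat.factorial_pos _
  have e : ∀ s, amc x s = s * ((((x - 1).factorial : ℝ) + 1) / (x : ℝ) ^ 2) := fun s => by unfold amc; ring
  refine ⟨⟨?_, ?_, ?_⟩, ?_⟩
  · unfold amc
    fun_prop
  · refine ⟨convex_Icc _ _, ?_⟩
    intro s _ t _ α β _ _ _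
    rw [e, e, e]
    simp only [smul_eq_mul]
    apply le_of_eq
    ring
  · intro s _ t _ hst
    rw [e, e, ← sub_mul, mul_comm]
    apply mul_le_mul_of_nonneg_left _ (by linarith)
    rw [add_zero, div_le_div_iff₀ (by positivity) (by positivity)]
    have : (0 : ℝ) < (x : ℝ) ^ 2 := by positivity
    nlinarith
  · rw [e, e, ← sub_mul, add_sub_cancel_left, one_mul, add_zero]
    apply div_le_div_of_nonneg_right _ (by positivity)
    have h1 : x.factorial = x * (x - 1).factorial := (Nat.mul_factorial_pred hx.ne_zero).symm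
    rw [h1]
    push_cast
    nlinarith

open Classical in
/-- all primes and one residue class -/
theorem all_primes {φ : ℕ → ℝ → ℝ} (hφ : Fam φ) :
    ∀ᵐ s : ℝ, 0 ≤ s → ∀ b : ℤ,
      Tendsto (fun n : ℕ => (((Finset.range n).filter fun p : ℕ => p.Prime ∧ (p : ℤ) ∣ ⌊(p : ℝ) * φ p s⌋ - b).card : ℝ) /
        Real.log (Real.log n)) atTop (𝓝 1) := by
  obtain ⟨P, hP⟩ : ∃ P : Set ℕ, ∀ p, p ∈ P ↔ p.Prime := ⟨{p | p.Prime}, fun p => Iff.rfl⟩
  have hns : ¬ Summable (fun p : ℕ => if p ∈ P then ((1 : ℕ) : ℝ) / p else 0) := by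
    intro hs
    apply not_summable_one_div_on_primes
    refine hs.congr fun p => ?_
    rw [indicator_apply]
    simp [hP]
  have h0 : ∀ᵐ s : ℝ, ∀ b : ℤ, 0 ≤ s →
      Tendsto (fun n : ℕ => (((Finset.range n).filter fun p : ℕ => p.Prime ∧ (p : ℤ) ∣ ⌊(p : ℝ) * φ p s⌋ - b).card : ℝ) /
        Real.log (Real.log n)) atTop (𝓝 1) := by
    rw [ae_all_iff]
    intro b
    filter_upwards [gen_div hφ P (fun p hp => (hP p).1 hp) (fun _ => b) (fun _ => 1)
      (fun p hp => ⟨le_rfl, ((hP p).1 hp).one_le⟩) hns] with s hs h0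
    have hs := hs h0
    obtain ⟨C, hC⟩ := Pool.Agent.Helper256.KM.mertens_inv
    have hdiff : ∀ n : ℕ, 3 ≤ n →
        |Real.log (Real.log n) - ∑ p ∈ (Finset.range n).filter (fun p => p ∈ P), ((1 : ℕ) : ℝ) / p| ≤ C + 1 := by
      intro n hn
      have h1 := hC n hn
      have h2 : ∑ p ∈ (Finset.Icc 1 n).filter Nat.Prime, (1 : ℝ) / p =
          ∑ p ∈ (Finset.range n).filter (fun p => p ∈ P), ((1 : ℕ) : ℝ) / p + if n ∈ P then ((1 : ℕ) : ℝ) / n else 0 := by
        have e1 : (Finset.Icc 1 n).filter Nat.Prime = (Finset.range (n + 1)).filter (fun p => p ∈ P) := by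
          ext p
          simp only [Finset.mem_filter, Finset.mem_Icc, Finset.mem_range, hP]
          constructor
          · rintro ⟨⟨_, h⟩, hp⟩; exact ⟨by omega, hp⟩
          · rintro ⟨h, hp⟩; exact ⟨⟨hp.one_le, by omega⟩, hp⟩
        rw [e1, Finset.sum_filter, Finset.sum_range_succ, ← Finset.sum_filter]
        simp
      have h3 : |(if n ∈ P then ((1 : ℕ) : ℝ) / n else 0)| ≤ 1 := by
        have hn0 : (1 : ℝ) ≤ n := by exact_mod_cast (show 1 ≤ n by omega)
        split_ifs
        · rw [abs_of_nonneg (by positivity), div_le_one (by linarith)]; simpa using hn0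
        · norm_num
      rw [h2] at h1
      rw [abs_le] at h1 h3 ⊢
      constructor <;> linarith [h1.1, h1.2, h3.1, h3.2]
    have hg : Tendsto (fun n : ℕ => ∑ p ∈ (Finset.range n).filter (fun p => p ∈ P), ((1 : ℕ) : ℝ) / p) atTop atTop := by
      have h1 := (not_summable_iff_tendsto_nat_atTop_of_nonneg (fun p => by split_ifs <;> positivity)).1 hns
      refine h1.congr fun n => ?_
      rw [Finset.sum_filter]
    refine ratio (C := |C| + 1) hs hg (Eventually.of_forall fun n => ?_) ?_
    · have e1 : ((Finset.range n).filter fun p : ℕ => p.Prime ∧ (p : ℤ) ∣ ⌊(p : ℝ) * φ p s⌋ - b) =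
          (Finset.range n).filter fun p : ℕ => p ∈ P ∧ (⌊(p : ℝ) * φ p s⌋ - b) % (p : ℤ) < ((1 : ℕ) : ℤ) := by
        ext p
        simp only [Finset.mem_filter, Finset.mem_range, hP]
        constructor
        · rintro ⟨h1, h2, h3⟩
          refine ⟨h1, h2, ?_⟩
          rw [Int.emod_eq_zero_of_dvd h3]
          norm_num
        · rintro ⟨h1, h2, h3⟩
          refine ⟨h1, h2, ?_⟩
          have h4 := Int.emod_nonneg (⌊(p : ℝ) * φ p s⌋ - b) (show (p : ℤ) ≠ 0 by exact_mod_cast h2.ne_zero)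
          exact Int.dvd_of_emod_eq_zero (by push_cast at h3; omega)
      rw [e1, sub_self, abs_zero]
      positivity
    · filter_upwards [eventually_ge_atTop 3] with n hn
      exact (hdiff n hn).trans (by linarith [le_abs_self C])
  filter_upwards [h0] with s hs h0 b
  exact hs b h0

end Pool.Agent.X28.WI
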