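import Pool.Agent.X28.WI.Law

set_option autoImplicit false

/-! From the curves to the residues of their integer parts. -/

namespace Pool.Agent.X28.WI

open Set MeasureTheory Filter Topology

/-- a family of curves on the half line -/
def Fam (φ : ℕ → ℝ → ℝ) : Prop :=
  ∀ a : ℕ, ∃ m : ℕ, ∀ x : ℕ, x.Prime → 11 ≤ x →
    Curve (φ x) (((x + m - 1).factorial : ℝ) / (2 * (x : ℝ) ^ 2)) a (a + 1) ∧
      φ x (a + 1) - φ x a ≤ ((x + m).factorial : ℝ) / (x : ℝ) ^ 2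

lemma fract_iff (y : ℝ) (B : ℤ) (p L : ℕ) (hp : 0 < p) :
    Int.fract (y - (B : ℝ) / p) < (L : ℝ) / p ↔ (⌊(p : ℝ) * y⌋ - B) % (p : ℤ) < L := by
  have hp' : (0 : ℝ) < p := by exact_mod_cast hp
  set z : ℝ := (p : ℝ) * y - B with hz
  have h1 : ⌊(p : ℝ) * y⌋ - B = ⌊z⌋ := by rw [hz, Int.floor_sub_intCast]
  have h2 : y - (B : ℝ) / p = z / p := by rw [hz]; field_simp
  rw [h1, h2, lt_div_iff₀ hp', ← Int.self_sub_floor, Int.floor_div_natCast]
  have h3 : (z / p - ((⌊z⌋ / (p : ℤ) : ℤ) : ℝ)) * p = Int.fract z + ((⌊z⌋ % (p : ℤ) : ℤ) : ℝ) := by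
    have h4 := Int.emod_add_mul_ediv ⌊z⌋ p
    have h5 : (⌊z⌋ : ℝ) = ((⌊z⌋ % (p : ℤ) : ℤ) : ℝ) + p * ((⌊z⌋ / (p : ℤ) : ℤ) : ℝ) := by exact_mod_cast h4.symm
    have h6 := Int.floor_add_fract z
    rw [sub_mul, div_mul_cancel₀ _ hp'.ne']
    linarith
  rw [h3]
  have h7 := Int.fract_nonneg z
  have h8 := Int.fract_lt_one z
  constructor
  · intro h
    have : ((⌊z⌋ % (p : ℤ) : ℤ) : ℝ) < ((L : ℤ) : ℝ) := by push_cast; linarith
    exact_mod_cast this
  · intro h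
    have h9 : (⌊z⌋ % (p : ℤ) : ℤ) + 1 ≤ (L : ℤ) := h
    have h10 : (((⌊z⌋ % (p : ℤ) : ℤ) + 1 : ℤ) : ℝ) ≤ ((L : ℤ) : ℝ) := by exact_mod_cast h9
    push_cast at h10
    linarith

lemma ratio {f g F G : ℕ → ℝ} {C : ℝ} (h : Tendsto (fun n => f n / g n) atTop (𝓝 1)) (hg : Tendsto g atTop atTop)
    (hF : ∀ᶠ n in atTop, |F n - f n| ≤ C) (hG : ∀ᶠ n in atTop, |G n - g n| ≤ C) :
    Tendsto (fun n => F n / G n) atTop (𝓝 1) := by
  have hz : ∀ (H : ℕ → ℝ), (∀ᶠ n in atTop, |H n| ≤ C) → Tendsto (fun n => H n / g n) atTop (𝓝 0) := by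
    intro H hH
    refine squeeze_zero_norm' ?_ (hg.const_div_atTop C)
    filter_upwards [hH, hg.eventually_gt_atTop 0] with n h1 h2
    rw [Real.norm_eq_abs, abs_div, abs_of_pos h2]
    exact div_le_div_of_nonneg_right h1 h2.le
  have h1 := h.add (hz _ hF)
  have h2 := (hz _ hG).const_add 1
  rw [add_zero] at h1 h2
  have h3 := h1.div h2 one_ne_zero
  rw [div_one] at h3
  refine h3.congr' ?_
  filter_upwards [hg.eventually_gt_atTop 0] with n hn
  have e1 : f n / g n + (F n - f n) / g n = F n / g n := by rw [← add_div]; congr 1; ring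
  have e2 : 1 + (G n - g n) / g n = G n / g n := by rw [sub_div, div_self hn.ne']; ring
  simp only [Pi.div_apply]
  rw [e1, e2, div_div_div_cancel_right₀ hn.ne']

lemma tail_diff {f g : ℕ → ℝ} (hf : ∀ x, 0 ≤ f x ∧ f x ≤ 1) (hg : ∀ x, 0 ≤ g x ∧ g x ≤ 1)
    (h : ∀ x, 11 ≤ x → f x = g x) (n : ℕ) : |∑ x ∈ Finset.range n, f x - ∑ x ∈ Finset.range n, g x| ≤ 11 := by
  rw [← Finset.sum_sub_distrib]
  have h1 : ∀ x ∈ Finset.range n, |f x - g x| ≤ if x < 11 then (1 : ℝ) else 0 := by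
    intro x _
    have h2 := hf x
    have h3 := hg x
    split_ifs with hx
    · rw [abs_le]; constructor <;> linarith
    · rw [h x (by omega), sub_self, abs_zero]
  refine (Finset.abs_sum_le_sum_abs _ _).trans ((Finset.sum_le_sum h1).trans ?_)
  rw [← Finset.sum_filter, Finset.sum_const, nsmul_eq_mul, mul_one]
  have h2 : ((Finset.range n).filter (fun x => x < 11)).card ≤ 11 := by
    calc ((Finset.range n).filter (fun x => x < 11)).card ≤ (Finset.range 11).card := by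
          apply Finset.card_le_card
          intro x hx
          rw [Finset.mem_filter] at hx
          exact Finset.mem_range.2 hx.2
      _ = 11 := Finset.card_range 11
  exact_mod_cast h2

lemma Fam.dat {φ : ℕ → ℝ → ℝ} (hφ : Fam φ) {S : Set ℕ} (hS : ∀ p ∈ S, p.Prime) (B : ℕ → ℤ) {L : ℕ → ℕ}
    (hL : ∀ p ∈ S, 1 ≤ L p ∧ L p ≤ p) (a : ℕ) :
    ∃ m : ℕ, ∃ D : ℕ → ℝ, Dat (a : ℝ) m φ D (fun x => (B x : ℝ) / x) (fun x => (L x : ℝ) / x) {x | x ∈ S ∧ 11 ≤ x} := by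
  obtain ⟨m, hm⟩ := hφ a
  refine ⟨m, fun x => ((x + m - 1).factorial : ℝ) / (2 * (x : ℝ) ^ 2), ?_, ?_, ?_, ?_, ?_, ?_⟩
  · rintro x ⟨hx, h11⟩
    exact ⟨hS x hx, h11⟩
  · rintro x ⟨hx, h11⟩
    exact (hm x (hS x hx) h11).1
  · rintro x _
    exact le_rfl
  · rintro x ⟨hx, h11⟩
    exact (hm x (hS x hx) h11).2
  · rintro x ⟨hx, h11⟩
    have h1 : (0 : ℝ) < x := by exact_mod_cast (hS x hx).pos
    have h2 : (1 : ℝ) ≤ L x := by exact_mod_cast (hL x hx).1
    exact div_le_div_of_nonneg_right h2 h1.le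
  · rintro x ⟨hx, h11⟩
    have h1 : (0 : ℝ) < x := by exact_mod_cast (hS x hx).pos
    have h2 : (L x : ℝ) ≤ x := by exact_mod_cast (hL x hx).2
    rw [div_le_one h1]
    exact h2

lemma all_of_pieces {P : ℝ → Prop} (h : ∀ a : ℕ, ∀ᵐ s ∂(volume.restrict (Ico (a : ℝ) (a + 1))), P s) :
    ∀ᵐ s : ℝ, 0 ≤ s → P s := by
  have h1 : ∀ᵐ s : ℝ, ∀ a : ℕ, s ∈ Ico (a : ℝ) (a + 1) → P s := by
    rw [ae_all_iff]
    intro a
    exact (ae_restrict_iff' measurableSet_Ico).1 (h a)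
  filter_upwards [h1] with s hs h0
  exact hs ⌊s⌋₊ ⟨Nat.floor_le h0, Nat.lt_floor_add_one s⟩

open Classical in
theorem gen_div {φ : ℕ → ℝ → ℝ} (hφ : Fam φ) (S : Set ℕ) (hS : ∀ p ∈ S, p.Prime) (B : ℕ → ℤ) (L : ℕ → ℕ)
    (hL : ∀ p ∈ S, 1 ≤ L p ∧ L p ≤ p) (hns : ¬ Summable (fun p : ℕ => if p ∈ S then (L p : ℝ) / p else 0)) :
    ∀ᵐ s : ℝ, 0 ≤ s →
      Tendsto (fun n : ℕ => (((Finset.range n).filter fun p => p ∈ S ∧ (⌊(p : ℝ) * φ p s⌋ - B p) % (p : ℤ) < L p).card : ℝ) /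
        ∑ p ∈ (Finset.range n).filter (fun p => p ∈ S), (L p : ℝ) / p) atTop (𝓝 1) := by
  apply all_of_pieces
  intro a
  set T : Set ℕ := {x | x ∈ S ∧ 11 ≤ x} with hT
  obtain ⟨m, D, hd⟩ := hφ.dat hS B hL a
  have hex0 : ∀ x, 0 ≤ ex (fun x => (L x : ℝ) / x) T x := by
    intro x
    unfold ex
    split_ifs with hx
    · positivity
    · exact le_rfl
  have hnsT : ¬ Summable (ex (fun x => (L x : ℝ) / x) T) := by
    intro hs
    apply hns
    rw [← summable_nat_add_iff 11] at hs ⊢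
    refine hs.congr fun n => ?_
    unfold ex
    have : (n + 11 ∈ T) ↔ (n + 11 ∈ S) := by
      rw [hT, Set.mem_ofPred_eq]
      constructor
      · exact fun h => h.1
      · exact fun h => ⟨h, by omega⟩
    by_cases hx : n + 11 ∈ S
    · rw [if_pos hx, if_pos (this.2 hx)]
    · rw [if_neg hx, if_neg (fun hh => hx (this.1 hh))]
  have hg : Tendsto (fun n => ∑ x ∈ Finset.range n, ex (fun x => (L x : ℝ) / x) T x) atTop atTop :=
    (not_summable_iff_tendsto_nat_atTop_of_nonneg hex0).1 hnsT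
  filter_upwards [law hd hnsT] with s hs
  refine ratio (C := 11) hs hg (Eventually.of_forall fun n => ?_) (Eventually.of_forall fun n => ?_)
  · have e1 : (((Finset.range n).filter fun p => p ∈ S ∧ (⌊(p : ℝ) * φ p s⌋ - B p) % (p : ℤ) < L p).card : ℝ) =
        ∑ x ∈ Finset.range n, (if x ∈ S ∧ (⌊(x : ℝ) * φ x s⌋ - B x) % (x : ℤ) < L x then (1 : ℝ) else 0) := by
      rw [← Finset.sum_filter, Finset.sum_const, nsmul_eq_mul, mul_one]
    rw [e1]
    apply tail_diff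
    · intro x
      split_ifs <;> norm_num
    · exact fun x => ⟨ev_nonneg x s, ev_le_one x s⟩
    · intro x hx
      unfold ev
      by_cases hxS : x ∈ S
      · have hxT : x ∈ T := ⟨hxS, hx⟩
        rw [if_pos hxT, indicator_apply]
        have h1 := fract_iff (φ x s) (B x) x (L x) (hS x hxS).pos
        unfold E
        simp only [Set.mem_ofPred_eq, Pi.one_apply, hxS, true_and, h1]
      · rw [if_neg (fun hh => hxS hh.1), if_neg (fun hh => hxS hh.1)]
        rfl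
  · rw [Finset.sum_filter]
    apply tail_diff
    · intro x
      split_ifs with hx
      · have h1 : (0 : ℝ) < x := by exact_mod_cast (hS x hx).pos
        have h2 : (L x : ℝ) ≤ x := by exact_mod_cast (hL x hx).2
        exact ⟨by positivity, by rw [div_le_one h1]; exact h2⟩
      · norm_num
    · intro x
      unfold ex
      split_ifs with hx
      · have h1 : (0 : ℝ) < x := by exact_mod_cast (hS x hx.1).pos
        have h2 : (L x : ℝ) ≤ x := by exact_mod_cast (hL x hx.1).2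
        exact ⟨by positivity, by rw [div_le_one h1]; exact h2⟩
      · norm_num
    · intro x hx
      unfold ex
      by_cases hxS : x ∈ S
      · have hxT : x ∈ T := ⟨hxS, hx⟩
        rw [if_pos hxT, if_pos hxS]
      · rw [if_neg hxS, if_neg (fun hh => hxS hh.1)]

open Classical in
theorem gen_conv {φ : ℕ → ℝ → ℝ} (hφ : Fam φ) (S : Set ℕ) (hS : ∀ p ∈ S, p.Prime) (B : ℕ → ℤ) (L : ℕ → ℕ)
    (hL : ∀ p ∈ S, 1 ≤ L p ∧ L p ≤ p) (hsum : Summable (fun p : ℕ => if p ∈ S then (L p : ℝ) / p else 0)) :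
    ∀ᵐ s : ℝ, 0 ≤ s → {p | p ∈ S ∧ (⌊(p : ℝ) * φ p s⌋ - B p) % (p : ℤ) < L p}.Finite := by
  apply all_of_pieces
  intro a
  set T : Set ℕ := {x | x ∈ S ∧ 11 ≤ x} with hT
  obtain ⟨m, D, hd⟩ := hφ.dat hS B hL a
  have hsT : Summable (ex (fun x => (L x : ℝ) / x) T) := by
    refine Summable.of_nonneg_of_le (fun x => ?_) (fun x => ?_) hsum
    · unfold ex
      split_ifs with hx
      · positivity
      · exact le_rfl
    · unfold ex
      by_cases hx : x ∈ T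
      · rw [if_pos hx, if_pos hx.1]
      · rw [if_neg hx]
        split_ifs
        · positivity
        · exact le_rfl
  filter_upwards [few hd hsT] with s hs
  refine (hs.union (Set.finite_Iio 11)).subset ?_
  rintro x ⟨hx, hxs⟩
  by_cases h11 : 11 ≤ x
  · left
    refine ⟨⟨hx, h11⟩, ?_⟩
    unfold E
    rw [Set.mem_ofPred_eq]
    exact (fract_iff (φ x s) (B x) x (L x) (hS x hx).pos).2 hxs
  · right
    exact not_le.1 h11

end Pool.Agent.X28.WI
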