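import Pool.Agent.X28.WI.Arc
import Pool.Agent.X100.HT.Prob

set_option autoImplicit false

/-! The law of large numbers for fast growing families of convex curves. -/

namespace Pool.Agent.X28.WI

open Set MeasureTheory Filter Topology

open Classical in
/-- the indicator of the event at `x` -/
noncomputable def ev (φ : ℕ → ℝ → ℝ) (u ℓ : ℕ → ℝ) (S : Set ℕ) (x : ℕ) : ℝ → ℝ :=
  if x ∈ S then (E (φ x) (u x) (ℓ x)).indicator 1 else 0

open Classical in
/-- the expected number at `x` -/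
noncomputable def ex (ℓ : ℕ → ℝ) (S : Set ℕ) (x : ℕ) : ℝ := if x ∈ S then ℓ x else 0

lemma fact_ge (x : ℕ) (hx : 11 ≤ x) : 8 * x ^ 4 ≤ (x - 1).factorial := by
  induction x, hx using Nat.le_induction with
  | base => decide
  | succ x hx ih =>
    have e1 : x + 1 - 1 = (x - 1) + 1 := by omega
    rw [e1, Nat.factorial_succ]
    have e2 : x - 1 + 1 = x := by omega
    rw [e2]
    have h1 : x * (8 * x ^ 4) ≤ x * (x - 1).factorial := Nat.mul_le_mul_left _ ih
    have h2 : (x + 1) ^ 4 ≤ (2 * x) ^ 4 := Nat.pow_le_pow_left (by omega) 4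
    have h3 : (x + 1) ^ 4 ≤ x * x ^ 4 := by
      have : (x + 1) ^ 4 * 10 ^ 4 ≤ (11 * x) ^ 4 := by
        rw [← mul_pow]
        exact Nat.pow_le_pow_left (by omega) 4
      have h4 : (11 * x) ^ 4 = 14641 * x ^ 4 := by ring
      have h5 : 11 * x ^ 4 ≤ x * x ^ 4 := Nat.mul_le_mul_right _ hx
      omega
    have h4 : 8 * (x + 1) ^ 4 ≤ 8 * (x * x ^ 4) := Nat.mul_le_mul_left _ h3
    have h5 : x * (8 * x ^ 4) = 8 * (x * x ^ 4) := by ring
    omega

lemma sum_half (x n : ℕ) : ∑ y ∈ Finset.Ioo x n, (1 / 2 : ℝ) ^ (y - x) ≤ 2 := by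
  refine le_trans ?_ (sum_geometric_two_le n)
  have h1 : ∑ y ∈ Finset.Ioo x n, (1 / 2 : ℝ) ^ (y - x) = ∑ j ∈ (Finset.Ioo x n).image (fun y => y - x), (1 / 2 : ℝ) ^ j := by
    rw [Finset.sum_image]
    intro a ha b hb hab
    rw [Finset.mem_coe, Finset.mem_Ioo] at ha hb
    dsimp only at hab
    omega
  rw [h1]
  apply Finset.sum_le_sum_of_subset_of_nonneg
  · intro j hj
    obtain ⟨y, hy, rfl⟩ := Finset.mem_image.1 hj
    rw [Finset.mem_Ioo] at hy
    rw [Finset.mem_range]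
    omega
  · intro _ _ _; positivity

/-- the error for a pair of primes -/
lemma pair_err (x y m : ℕ) (hx : x.Prime) (hx11 : 11 ≤ x) (hy : y.Prime) (hxy : x < y) (Dy : ℝ)
    (hD : ((y + m - 1).factorial : ℝ) / (2 * (y : ℝ) ^ 2) ≤ Dy) :
    (((x + m).factorial : ℝ) / (x : ℝ) ^ 2 + 4) * (2 / Dy) ≤ 2880 / ((x : ℝ) + 1) * (1 / 2) ^ (y - x) := by
  obtain ⟨j, hj⟩ : ∃ j, y = x + j := ⟨y - x, by omega⟩
  have hj2 : 2 ≤ j := by
    by_contra hlt
    have h1 : j = 1 := by omega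
    have h2 := hx.eq_two_or_odd'.resolve_left (by omega)
    have h3 := hy.eq_two_or_odd'.resolve_left (by omega)
    rw [hj, h1] at h3
    rcases h2 with ⟨a, ha⟩
    rcases h3 with ⟨b, hb⟩
    omega
  have hjx : y - x = j := by omega
  rw [hjx]
  have hxr : (11 : ℝ) ≤ x := by exact_mod_cast hx11
  have hyr : (y : ℝ) = x + j := by rw [hj]; push_cast; ring
  have hy0 : (0 : ℝ) < y := by rw [hyr]; positivity
  set F : ℝ := ((x + m).factorial : ℝ) with hF
  have hF0 : 0 < F := by rw [hF]; exact_mod_cast Nat.factorial_pos _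
  have hfac : F * ((x : ℝ) + m + 1) ^ (j - 1) ≤ ((y + m - 1).factorial : ℝ) := by
    have h1 := Nat.factorial_mul_pow_le_factorial (m := x + m) (n := j - 1)
    have h2 : x + m + (j - 1) = y + m - 1 := by omega
    rw [h2] at h1
    rw [hF]
    exact_mod_cast h1
  have hpow : ((x : ℝ) + 1) * 12 ^ (j - 2) ≤ ((x : ℝ) + m + 1) ^ (j - 1) := by
    have e : j - 1 = (j - 2) + 1 := by omega
    rw [e, pow_succ, mul_comm]
    have hm : (0 : ℝ) ≤ m := Nat.cast_nonneg _
    apply mul_le_mul _ (by linarith) (by linarith) (by positivity)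
    exact pow_le_pow_left₀ (by norm_num) (by linarith) _
  have hDy : 0 < Dy := lt_of_lt_of_le (by
    have : (0 : ℝ) < ((y + m - 1).factorial : ℝ) := by exact_mod_cast Nat.factorial_pos _
    positivity) hD
  have hDinv : 2 / Dy ≤ 4 * (y : ℝ) ^ 2 / (F * (((x : ℝ) + 1) * 12 ^ (j - 2))) := by
    rw [div_le_div_iff₀ hDy (by positivity)]
    have h1 : F * (((x : ℝ) + 1) * 12 ^ (j - 2)) ≤ ((y + m - 1).factorial : ℝ) :=
      (mul_le_mul_of_nonneg_left hpow hF0.le).trans hfac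
    rw [div_le_iff₀ (by positivity)] at hD
    nlinarith
  have hyx : (y : ℝ) ^ 2 ≤ (x : ℝ) ^ 2 * 2 ^ j := by
    have h1 : 1 + (j : ℝ) * (1 / 11) ≤ (1 + 1 / 11) ^ j := one_add_mul_le_pow (by norm_num) j
    have h2 : (y : ℝ) ≤ x * (1 + 1 / 11) ^ j := by
      rw [hyr]
      have : (j : ℝ) ≤ x * (j * (1 / 11)) := by
        have : (0 : ℝ) ≤ j := Nat.cast_nonneg _
        nlinarith
      nlinarith
    calc (y : ℝ) ^ 2 ≤ (x * (1 + 1 / 11) ^ j) ^ 2 := by gcongr
      _ = (x : ℝ) ^ 2 * ((1 + 1 / 11) ^ 2) ^ j := by rw [mul_pow, ← pow_mul, ← pow_mul, mul_comm j 2]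
      _ ≤ (x : ℝ) ^ 2 * 2 ^ j := by gcongr; norm_num
  have hFx : (x : ℝ) ^ 2 ≤ F := by
    have h1 := fact_ge x hx11
    have h2 : (x - 1).factorial ≤ (x + m).factorial := Nat.factorial_le (by omega)
    have h3 : x ^ 2 ≤ 8 * x ^ 4 := by
      have : x ^ 2 ≤ x ^ 4 := Nat.pow_le_pow_right (by omega) (by norm_num)
      omega
    rw [hF]
    exact_mod_cast h3.trans (h1.trans h2)
  have h12 : (12 : ℝ) ^ j = 144 * 12 ^ (j - 2) := by
    have e : j = (j - 2) + 2 := by omega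
    conv_lhs => rw [e, pow_add]
    norm_num
    ring
  calc (F / (x : ℝ) ^ 2 + 4) * (2 / Dy) ≤ (5 * (F / (x : ℝ) ^ 2)) * (4 * (y : ℝ) ^ 2 / (F * (((x : ℝ) + 1) * 12 ^ (j - 2)))) := by
        apply mul_le_mul _ hDinv (by positivity) (by positivity)
        have : 1 ≤ F / (x : ℝ) ^ 2 := by rw [le_div_iff₀ (by positivity)]; linarith
        linarith
    _ ≤ (5 * (F / (x : ℝ) ^ 2)) * (4 * ((x : ℝ) ^ 2 * 2 ^ j) / (F * (((x : ℝ) + 1) * 12 ^ (j - 2)))) := by gcongr
    _ = 20 * 144 / ((x : ℝ) + 1) * (2 ^ j / (144 * 12 ^ (j - 2))) := by field_simp; ring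
    _ = 2880 / ((x : ℝ) + 1) * (2 / 12) ^ j := by rw [← h12, div_pow]; norm_num
    _ ≤ 2880 / ((x : ℝ) + 1) * (1 / 2) ^ j := by
        apply mul_le_mul_of_nonneg_left _ (by positivity)
        exact pow_le_pow_left₀ (by norm_num) (by norm_num) j

instance (a : ℝ) : IsProbabilityMeasure (volume.restrict (Ico a (a + 1))) :=
  ⟨by simp⟩

/-- the data of a family of curves over `[a, a+1]` -/
structure Dat (a : ℝ) (m : ℕ) (φ : ℕ → ℝ → ℝ) (D u ℓ : ℕ → ℝ) (S : Set ℕ) : Prop where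
  pr : ∀ x ∈ S, x.Prime ∧ 11 ≤ x
  cv : ∀ x ∈ S, Curve (φ x) (D x) a (a + 1)
  dm : ∀ x ∈ S, ((x + m - 1).factorial : ℝ) / (2 * (x : ℝ) ^ 2) ≤ D x
  tv : ∀ x ∈ S, φ x (a + 1) - φ x a ≤ ((x + m).factorial : ℝ) / (x : ℝ) ^ 2
  l0 : ∀ x ∈ S, 1 / (x : ℝ) ≤ ℓ x
  l1 : ∀ x ∈ S, ℓ x ≤ 1

section

variable {a : ℝ} {m : ℕ} {φ : ℕ → ℝ → ℝ} {D u ℓ : ℕ → ℝ} {S : Set ℕ}

lemma Dat.Dpos (h : Dat a m φ D u ℓ S) {x : ℕ} (hx : x ∈ S) : 0 < D x := by
  refine lt_of_lt_of_le ?_ (h.dm x hx)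
  have h1 : (0 : ℝ) < ((x + m - 1).factorial : ℝ) := by exact_mod_cast Nat.factorial_pos _
  have h2 : (0 : ℝ) < x := by exact_mod_cast (h.pr x hx).1.pos
  positivity

lemma Dat.Dinv (h : Dat a m φ D u ℓ S) {x : ℕ} (hx : x ∈ S) : 2 / D x ≤ 1 / (2 * (x : ℝ) ^ 2) := by
  have hD := h.Dpos hx
  have h11 := (h.pr x hx).2
  have hx0 : (0 : ℝ) < x := by exact_mod_cast (h.pr x hx).1.pos
  have h1 := h.dm x hx
  have h2 : (8 * (x : ℝ) ^ 4) ≤ ((x + m - 1).factorial : ℝ) := by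
    have h3 := (fact_ge x h11).trans (Nat.factorial_le (show x - 1 ≤ x + m - 1 by omega))
    exact_mod_cast h3
  rw [div_le_iff₀ (by positivity)] at h1
  rw [div_le_div_iff₀ hD (by positivity)]
  have h3 : 8 * (x : ℝ) ^ 4 ≤ D x * (2 * (x : ℝ) ^ 2) := h2.trans h1
  have h4 : (x : ℝ) ^ 2 * (4 * (x : ℝ) ^ 2) ≤ (x : ℝ) ^ 2 * D x := by nlinarith
  have h5 := le_of_mul_le_mul_left h4 (by positivity)
  linarith

lemma Dat.l00 (h : Dat a m φ D u ℓ S) {x : ℕ} (hx : x ∈ S) : 0 ≤ ℓ x :=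
  le_trans (by positivity) (h.l0 x hx)

/-- the measure of the event -/
noncomputable def vv (a : ℝ) (φ : ℕ → ℝ → ℝ) (u ℓ : ℕ → ℝ) (S : Set ℕ) (x : ℕ) : ℝ :=
  ∫ s, ev φ u ℓ S x s ∂(volume.restrict (Ico a (a + 1)))

lemma ev_meas (h : Dat a m φ D u ℓ S) (x : ℕ) : Measurable (ev φ u ℓ S x) := by
  unfold ev
  split_ifs with hx
  · exact measurable_one.indicator (E_meas (h.cv x hx).cont _ _)
  · exact measurable_zero

lemma ev_nonneg (x : ℕ) (s : ℝ) : 0 ≤ ev φ u ℓ S x s := by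
  unfold ev
  split_ifs
  · exact indicator_nonneg (fun _ _ => zero_le_one) _
  · exact le_rfl

lemma ev_le_one (x : ℕ) (s : ℝ) : ev φ u ℓ S x s ≤ 1 := by
  unfold ev
  split_ifs
  · exact indicator_le_self' (fun _ _ => zero_le_one) _
  · exact zero_le_one

lemma vv_in (h : Dat a m φ D u ℓ S) {x : ℕ} (hx : x ∈ S) :
    vv a φ u ℓ S x = volume.real (E (φ x) (u x) (ℓ x) ∩ Ico a (a + 1)) := by
  unfold vv ev
  rw [if_pos hx, integral_indicator_one (E_meas (h.cv x hx).cont _ _)]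
  rw [measureReal_restrict_apply (E_meas (h.cv x hx).cont _ _)]

lemma vv_out {x : ℕ} (hx : x ∉ S) : vv a φ u ℓ S x = 0 := by
  unfold vv ev
  rw [if_neg hx]
  simp

lemma vv_close (h : Dat a m φ D u ℓ S) {x : ℕ} (hx : x ∈ S) : |vv a φ u ℓ S x - ℓ x| ≤ 2 / D x := by
  rw [vv_in h hx]
  have h1 := arc_le (u := u x) (h.cv x hx) (h.Dpos hx) (by linarith) (h.l00 hx) (h.l1 x hx)
  have h2 := arc_ge (u := u x) (h.cv x hx) (h.Dpos hx) (by linarith) (h.l00 hx) (h.l1 x hx)
  have e : ℓ x * (a + 1 - a) = ℓ x := by ring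
  rw [e] at h1 h2
  rw [abs_le]
  constructor <;> linarith

lemma vv_low (h : Dat a m φ D u ℓ S) {x : ℕ} (hx : x ∈ S) : ℓ x / 2 ≤ vv a φ u ℓ S x := by
  have h1 := (abs_le.1 (vv_close h hx)).1
  have h2 := h.Dinv hx
  have h3 := h.l0 x hx
  have hxr : (11 : ℝ) ≤ x := by exact_mod_cast (h.pr x hx).2
  have h4 : 1 / (2 * (x : ℝ) ^ 2) ≤ 1 / (x : ℝ) / 2 := by
    rw [div_div, div_le_div_iff₀ (by positivity) (by positivity)]
    nlinarith
  linarith

theorem law (h : Dat a m φ D u ℓ S) (hns : ¬ Summable (ex ℓ S)) :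
    ∀ᵐ s ∂(volume.restrict (Ico a (a + 1))),
      Tendsto (fun n => (∑ x ∈ Finset.range n, ev φ u ℓ S x s) / ∑ x ∈ Finset.range n, ex ℓ S x) atTop (𝓝 1) := by
  classical
  have hv0 : ∀ x, 0 ≤ vv a φ u ℓ S x := fun x => integral_nonneg fun s => ev_nonneg x s
  have hex0 : ∀ x, 0 ≤ ex ℓ S x := by
    intro x
    unfold ex
    split_ifs with hx
    · exact h.l00 hx
    · exact le_rfl
  set e : ℕ → ℕ → ℝ := fun x y => if x ∈ S ∧ y ∈ S then (((x + m).factorial : ℝ) / (x : ℝ) ^ 2 + 4) * (2 / D y) else 0 with he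
  have he0 : ∀ x y, 0 ≤ e x y := by
    intro x y
    simp only [he]
    split_ifs with hxy
    · have := h.Dpos hxy.2
      positivity
    · exact le_rfl
  have hpair : ∀ x y, x < y → ∫ s, ev φ u ℓ S x s * ev φ u ℓ S y s ∂(volume.restrict (Ico a (a + 1))) ≤
      vv a φ u ℓ S x * vv a φ u ℓ S y + e x y := by
    intro x y hxy
    by_cases hS : x ∈ S ∧ y ∈ S
    · obtain ⟨hx, hy⟩ := hS
      have hmx := E_meas (h.cv x hx).cont (u x) (ℓ x)
      have hmy := E_meas (h.cv y hy).cont (u y) (ℓ y)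
      have h1 : ∀ s, ev φ u ℓ S x s * ev φ u ℓ S y s = (E (φ y) (u y) (ℓ y) ∩ E (φ x) (u x) (ℓ x)).indicator 1 s := by
        intro s
        unfold ev
        rw [if_pos hx, if_pos hy, inter_indicator_one]
        simp only [Pi.mul_apply]
        ring
      simp only [h1]
      rw [integral_indicator_one (hmy.inter hmx), measureReal_restrict_apply (hmy.inter hmx)]
      have h2 := pair_le (u := u x) (u' := u y) (h.cv x hx) (h.Dpos hx) (h.cv y hy) (h.Dpos hy) (by linarith) (h.l00 hx) (h.l1 x hx)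
        (h.l00 hy) (h.l1 y hy)
      refine h2.trans ?_
      rw [← vv_in h hx]
      have h3 := (abs_le.1 (vv_close h hy)).1
      have h4 : vv a φ u ℓ S x ≤ 1 := by
        rw [vv_in h hx]
        have := vol_le (E (φ x) (u x) (ℓ x)) (show a ≤ a + 1 by linarith)
        linarith
      have h5 := h.tv x hx
      have h6 := h.Dpos hy
      have h7 : 0 < 2 / D y := by positivity
      have e1 : e x y = (((x + m).factorial : ℝ) / (x : ℝ) ^ 2 + 4) * (2 / D y) := by
        simp only [he]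
        rw [if_pos ⟨hx, hy⟩]
      rw [e1]
      have h8 : ℓ y * vv a φ u ℓ S x ≤ (vv a φ u ℓ S y + 2 / D y) * vv a φ u ℓ S x :=
        mul_le_mul_of_nonneg_right (by linarith) (hv0 x)
      have h9 : 2 / D y * vv a φ u ℓ S x ≤ 2 / D y * 1 := mul_le_mul_of_nonneg_left h4 h7.le
      have h10 : (φ x (a + 1) - φ x a + 3) * (2 / D y) ≤ (((x + m).factorial : ℝ) / (x : ℝ) ^ 2 + 3) * (2 / D y) :=
        mul_le_mul_of_nonneg_right (by linarith) h7.le
      nlinarith
    · have h1 : ∀ s, ev φ u ℓ S x s * ev φ u ℓ S y s = 0 := by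
        intro s
        unfold ev
        rcases not_and_or.1 hS with h2 | h2
        · rw [if_neg h2]; simp
        · rw [if_neg h2]; simp
      simp only [h1, integral_zero]
      have := mul_nonneg (hv0 x) (hv0 y)
      linarith [he0 x y]
  have hC : ∀ x n, ∑ y ∈ Finset.Ioo x n, e x y ≤ 11520 * vv a φ u ℓ S x := by
    intro x n
    by_cases hx : x ∈ S
    · have hxr : (11 : ℝ) ≤ x := by exact_mod_cast (h.pr x hx).2
      have h1 : ∀ y ∈ Finset.Ioo x n, e x y ≤ 2880 / ((x : ℝ) + 1) * (1 / 2) ^ (y - x) := by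
        intro y hy
        rw [Finset.mem_Ioo] at hy
        by_cases hyS : y ∈ S
        · simp only [he]
          rw [if_pos ⟨hx, hyS⟩]
          exact pair_err x y m (h.pr x hx).1 (h.pr x hx).2 (h.pr y hyS).1 hy.1 (D y) (h.dm y hyS)
        · simp only [he]
          rw [if_neg (fun hh => hyS hh.2)]
          positivity
      refine (Finset.sum_le_sum h1).trans ?_
      rw [← Finset.mul_sum]
      have h2 := sum_half x n
      have h3 := vv_low h hx
      have h4 := h.l0 x hx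
      calc 2880 / ((x : ℝ) + 1) * ∑ y ∈ Finset.Ioo x n, (1 / 2 : ℝ) ^ (y - x) ≤ 2880 / ((x : ℝ) + 1) * 2 := by gcongr
        _ ≤ 2880 / (x : ℝ) * 2 := by gcongr; linarith
        _ = 5760 * (1 / (x : ℝ)) := by ring
        _ ≤ 11520 * vv a φ u ℓ S x := by linarith
    · have h1 : ∀ y ∈ Finset.Ioo x n, e x y = 0 := by
        intro y _
        simp only [he]
        rw [if_neg (fun hh => hx hh.1)]
      rw [Finset.sum_congr rfl h1, Finset.sum_const_zero]
      exact mul_nonneg (by norm_num) (hv0 x)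
  have hnsv : ¬ Summable (vv a φ u ℓ S) := by
    intro hs
    apply hns
    refine Summable.of_nonneg_of_le hex0 (fun x => ?_) (hs.mul_left 2)
    unfold ex
    split_ifs with hx
    · have := vv_low h hx
      linarith
    · exact mul_nonneg (by norm_num) (hv0 x)
  have key := Pool.Agent.X100.HT.strong_law (P := volume.restrict (Ico a (a + 1))) (f := ev φ u ℓ S) (p := vv a φ u ℓ S)
    (e := e) (C := 11520) (fun x => ev_meas h x) (fun x s => ev_nonneg x s) (fun x s => ev_le_one x s) (fun x => rfl) hpair hC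
    (by norm_num) hnsv
  -- comparison of the two normalisations
  have hΨ : Tendsto (fun n => ∑ x ∈ Finset.range n, ex ℓ S x) atTop atTop :=
    (not_summable_iff_tendsto_nat_atTop_of_nonneg hex0).1 hns
  set B : ℝ := ∑' x : ℕ, 1 / (x : ℝ) ^ 2 with hB
  have hsum2 : Summable fun x : ℕ => 1 / (x : ℝ) ^ 2 := Real.summable_one_div_nat_pow.2 (by norm_num)
  have hdiff : ∀ n, |∑ x ∈ Finset.range n, vv a φ u ℓ S x - ∑ x ∈ Finset.range n, ex ℓ S x| ≤ B := by
    intro n
    rw [← Finset.sum_sub_distrib]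
    refine (Finset.abs_sum_le_sum_abs _ _).trans ?_
    refine le_trans (Finset.sum_le_sum fun x _ => ?_) (hsum2.sum_le_tsum (Finset.range n) fun _ _ => by positivity)
    unfold ex
    split_ifs with hx
    · refine (vv_close h hx).trans ((h.Dinv hx).trans ?_)
      have hx0 : (0 : ℝ) < x := by exact_mod_cast (h.pr x hx).1.pos
      apply one_div_le_one_div_of_le (by positivity)
      nlinarith [sq_nonneg (x : ℝ)]
    · rw [vv_out hx, sub_zero, abs_zero]
      positivity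
  have hratio : Tendsto (fun n => (∑ x ∈ Finset.range n, vv a φ u ℓ S x) / ∑ x ∈ Finset.range n, ex ℓ S x) atTop (𝓝 1) := by
    have h1 : Tendsto (fun n => B / ∑ x ∈ Finset.range n, ex ℓ S x) atTop (𝓝 0) := hΨ.const_div_atTop _
    have h2 : Tendsto (fun n => (∑ x ∈ Finset.range n, vv a φ u ℓ S x) / (∑ x ∈ Finset.range n, ex ℓ S x) - 1) atTop (𝓝 0) := by
      refine squeeze_zero_norm' ?_ h1
      filter_upwards [hΨ.eventually_gt_atTop 0] with n hn
      rw [Real.norm_eq_abs]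
      have e1 : (∑ x ∈ Finset.range n, vv a φ u ℓ S x) / (∑ x ∈ Finset.range n, ex ℓ S x) - 1 =
          (∑ x ∈ Finset.range n, vv a φ u ℓ S x - ∑ x ∈ Finset.range n, ex ℓ S x) / ∑ x ∈ Finset.range n, ex ℓ S x := by
        rw [sub_div, div_self hn.ne']
      rw [e1, abs_div, abs_of_pos hn]
      exact div_le_div_of_nonneg_right (hdiff n) hn.le
    have h3 := h2.add_const 1
    simp only [sub_add_cancel, zero_add] at h3
    exact h3
  have hvpos : ∀ᶠ n in atTop, 0 < ∑ x ∈ Finset.range n, vv a φ u ℓ S x := by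
    filter_upwards [hΨ.eventually_gt_atTop B] with n hn
    have := (abs_le.1 (hdiff n)).1
    linarith
  filter_upwards [key] with s hs
  have h1 := hs.mul hratio
  rw [mul_one] at h1
  refine h1.congr' ?_
  filter_upwards [hvpos] with n hn
  field_simp

theorem few (h : Dat a m φ D u ℓ S) (hs : Summable (ex ℓ S)) :
    ∀ᵐ s ∂(volume.restrict (Ico a (a + 1))), {x | x ∈ S ∧ s ∈ E (φ x) (u x) (ℓ x)}.Finite := by
  classical
  have hex0 : ∀ x, 0 ≤ ex ℓ S x := by
    intro x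
    unfold ex
    split_ifs with hx
    · exact h.l00 hx
    · exact le_rfl
  have hsum2 : Summable fun x : ℕ => 1 / (x : ℝ) ^ 2 := Real.summable_one_div_nat_pow.2 (by norm_num)
  have key := Pool.Agent.X100.HT.ae_summable (P := volume.restrict (Ico a (a + 1))) (ev φ u ℓ S)
    (fun x => Integrable.of_bound (ev_meas h x).aestronglyMeasurable 1 (Eventually.of_forall fun s => by
      rw [Real.norm_eq_abs, abs_of_nonneg (ev_nonneg x s)]; exact ev_le_one x s))
    (fun x s => ev_nonneg x s) (fun x => ev_meas h x) (fun x => ex ℓ S x + 1 / (x : ℝ) ^ 2) (hs.add hsum2) (by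
      intro x
      by_cases hx : x ∈ S
      · have h1 := (abs_le.1 (vv_close h hx)).2
        have h2 := h.Dinv hx
        have hx0 : (0 : ℝ) < x := by exact_mod_cast (h.pr x hx).1.pos
        have h3 : 1 / (2 * (x : ℝ) ^ 2) ≤ 1 / (x : ℝ) ^ 2 := by
          apply one_div_le_one_div_of_le (by positivity)
          nlinarith [sq_nonneg (x : ℝ)]
        have h4 : ex ℓ S x = ℓ x := by unfold ex; rw [if_pos hx]
        rw [h4]
        have h5 : vv a φ u ℓ S x = ∫ s, ev φ u ℓ S x s ∂(volume.restrict (Ico a (a + 1))) := rfl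
        linarith
      · have h5 : vv a φ u ℓ S x = ∫ s, ev φ u ℓ S x s ∂(volume.restrict (Ico a (a + 1))) := rfl
        rw [← h5, vv_out hx]
        have := hex0 x
        positivity)
  filter_upwards [key] with s hs'
  have h1 := hs'.tendsto_cofinite_zero
  have h2 := h1.eventually (gt_mem_nhds (show (0 : ℝ) < 1 by norm_num))
  rw [eventually_cofinite] at h2
  refine h2.subset ?_
  rintro x ⟨hx, hsx⟩
  rw [Set.mem_ofPred_eq, not_lt]
  unfold ev
  rw [if_pos hx, indicator_of_mem hsx]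
  exact le_rfl

end

end Pool.Agent.X28.WI
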